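import Pool.Agent.KS6_47.LDB.Conj

/-!
# Bounded local derivations of Banach algebras
-/

set_option autoImplicit false

namespace Pool.Agent.Results.MP_066924_al.BanachLocalDerivations

open Pool.Agent.KS6_47.LDB NormedSpace

universe u v

section Defs

variable {𝕜 : Type u} [Field 𝕜] {A : Type v} [AddCommGroup A] [Module 𝕜 A]

/-- `D` is a derivation of the algebra `A` with the bilinear product `m`. -/
def IsDerivation (m : A →ₗ[𝕜] A →ₗ[𝕜] A) (D : A →ₗ[𝕜] A) : Prop :=
  ∀ x y : A, D (m x y) = m (D x) y + m x (D y)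

/-- `Δ` is a local derivation of the algebra `A` with the bilinear product `m`. -/
def IsLocalDerivation (m : A →ₗ[𝕜] A →ₗ[𝕜] A) (Δ : A →ₗ[𝕜] A) : Prop :=
  ∀ x : A, ∃ D : A →ₗ[𝕜] A, IsDerivation m D ∧ Δ x = D x

end Defs

section Banach

variable {𝕜 : Type u} [RCLike 𝕜] {E : Type v} [NormedAddCommGroup E] [NormedSpace 𝕜 E]

/-- The bounded operator `S` is locally in the set `L` of bounded operators. -/
def LocallyIn (L : Set (E →L[𝕜] E)) (S : E →L[𝕜] E) : Prop :=
  ∀ x : E, ∃ D ∈ L, S x = D x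

/-- The bounded operator `S` is approximately locally in the set `L` of bounded operators. -/
def ApproxLocallyIn (L : Set (E →L[𝕜] E)) (S : E →L[𝕜] E) : Prop :=
  ∀ x : E, ∀ ε : ℝ, 0 < ε → ∃ D ∈ L, ‖S x - D x‖ < ε

/-- All the sets `L x = {D x : D ∈ L}` are closed. -/
def ClosedValues (L : Set (E →L[𝕜] E)) : Prop :=
  ∀ x : E, IsClosed {y : E | ∃ D ∈ L, D x = y}

/-- The commutators of operators which are locally in `L` and of operators which are
approximately locally in `L` are approximately locally in `L`. -/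
def BracketApprox (L : Set (E →L[𝕜] E)) : Prop :=
  ∀ S T : E →L[𝕜] E, LocallyIn L S → ApproxLocallyIn L T → ApproxLocallyIn L (S * T - T * S)

/-- The bounded operators which are locally in `L` are closed under commutators. -/
def BracketLocal (L : Set (E →L[𝕜] E)) : Prop :=
  ∀ S T : E →L[𝕜] E, LocallyIn L S → LocallyIn L T → LocallyIn L (S * T - T * S)

/-- The bounded derivations of the Banach algebra `E` with the bounded bilinear product `m`. -/
def boundedDerivations (m : E →L[𝕜] E →L[𝕜] E) : Set (E →L[𝕜] E) :=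
  {D | ∀ x y : E, D (m x y) = m (D x) y + m x (D y)}

end Banach

section Real

variable {E : Type v} [NormedAddCommGroup E] [NormedSpace ℝ E]

theorem isClosed_closureVal (L : Submodule ℝ (E →L[ℝ] E)) (x : E) :
    IsClosed ((val L x).topologicalClosure : Set E) := (val L x).isClosed_topologicalClosure

/-- Values of the closure of `L` are in the closure of the values. -/
theorem closure_val_le (L : Submodule ℝ (E →L[ℝ] E)) (x : E) :
    (val L.topologicalClosure x).topologicalClosure ≤ (val L x).topologicalClosure := by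
  apply Submodule.topologicalClosure_minimal _ _ (Submodule.isClosed_topologicalClosure _)
  intro y hy
  obtain ⟨D, hD, rfl⟩ := mem_val.1 hy
  have hc : Continuous fun D : E →L[ℝ] E => D x := (ContinuousLinearMap.apply ℝ E x).continuous
  have h : D ∈ closure (L : Set (E →L[ℝ] E)) := hD
  have h2 : (fun D : E →L[ℝ] E => D x) D ∈ closure (val L x : Set E) :=
    map_mem_closure (f := fun D : E →L[ℝ] E => D x) (t := (val L x : Set E)) hc h
      (fun X hX => mem_val.2 ⟨X, hX, rfl⟩)
  exact h2

theorem closure_lie {L : Submodule ℝ (E →L[ℝ] E)} (hL : ∀ D ∈ L, ∀ X ∈ L, X * D - D * X ∈ L) :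
    ∀ D ∈ L.topologicalClosure, ∀ X ∈ L.topologicalClosure, X * D - D * X ∈ L.topologicalClosure := by
  intro D hD X hX
  have hD' : D ∈ closure (L : Set (E →L[ℝ] E)) := hD
  have hX' : X ∈ closure (L : Set (E →L[ℝ] E)) := hX
  have hc : Continuous fun p : (E →L[ℝ] E) × (E →L[ℝ] E) => p.2 * p.1 - p.1 * p.2 := by fun_prop
  have h := map_mem_closure₂ (f := fun (D X : E →L[ℝ] E) => X * D - D * X) hc hD' hX'
    (s := (L : Set (E →L[ℝ] E))) (t := (L : Set (E →L[ℝ] E))) (u := (L : Set (E →L[ℝ] E)))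
    (fun a ha b hb => hL a ha b hb)
  exact h

variable [CompleteSpace E]

/-- The commutator of an approximately local operator with an element of `L` is approximately
local. -/
theorem bracket_mem_closure {L : Submodule ℝ (E →L[ℝ] E)} (hclL : IsClosed (L : Set (E →L[ℝ] E)))
    (hL : ∀ D ∈ L, ∀ X ∈ L, X * D - D * X ∈ L) {S D : E →L[ℝ] E}
    (hS : ∀ x, S x ∈ (val L x).topologicalClosure) (hD : D ∈ L)
    (x : E) : (S * D - D * S) x ∈ (val L x).topologicalClosure := by
  have h1 : ∀ t : ℝ, (exp (-(t • D)) * S * exp (t • D)) x ∈ (val L x).topologicalClosure := by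
    intro t
    have h := hS (exp (t • D) x)
    have h' : S (exp (t • D) x) ∈ closure (val L (exp (t • D) x) : Set E) := h
    have h2 : exp (-(t • D)) (S (exp (t • D) x)) ∈ closure (val L x : Set E) := by
      refine map_mem_closure (exp (-(t • D)) : E →L[ℝ] E).continuous h' ?_
      intro y hy
      obtain ⟨X, hX, rfl⟩ := mem_val.1 hy
      exact mem_val.2 ⟨exp (-(t • D)) * X * exp (t • D), conj_mem hclL hL hD hX t, rfl⟩
    exact h2
  have h2 : HasDerivAt (fun t : ℝ => (exp (-(t • D)) * S * exp (t • D)) x)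
      ((S * D - D * S) x) 0 := by
    have h := (hasDerivAt_conj_zero D S).clm_apply (hasDerivAt_const (0 : ℝ) x)
    refine h.congr_deriv ?_
    rw [map_zero, add_zero]
  have h3 := h2.tendsto_slope_zero
  simp only [zero_add] at h3
  refine (isClosed_closureVal L x).mem_of_tendsto h3 ?_
  filter_upwards with t
  exact (val L x).topologicalClosure.smul_mem _ ((val L x).topologicalClosure.sub_mem (h1 t) (h1 0))

/-- Commutator of a local operator `S` and an approximately local operator `T`. -/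
theorem bracket_local_approx {L : Submodule ℝ (E →L[ℝ] E)} (hclL : IsClosed (L : Set (E →L[ℝ] E)))
    (hL : ∀ D ∈ L, ∀ X ∈ L, X * D - D * X ∈ L) {S T : E →L[ℝ] E}
    (hS : IsLocal L S) (hT : ∀ x, T x ∈ (val L x).topologicalClosure)
    (x : E) : (S * T - T * S) x ∈ (val L x).topologicalClosure := by
  obtain ⟨D, hD, eD⟩ := hS x
  have hS' : ∀ x, S x ∈ (val L x).topologicalClosure := by
    intro y
    obtain ⟨D, hD, eD⟩ := hS y
    exact Submodule.le_topologicalClosure _ (mem_val.2 ⟨D, hD, eD.symm⟩)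
  have hTx : T x ∈ closure (val L x : Set E) := hT x
  -- the map `y ↦ S y - D y` sends `L x` into the closure of `L x`
  have h1 : S (T x) - D (T x) ∈ (val L x).topologicalClosure := by
    have hc : Continuous fun y : E => S y - D y := by fun_prop
    refine (isClosed_closureVal L x).closure_subset ?_
    refine map_mem_closure (f := fun y : E => S y - D y) hc hTx ?_
    intro y hy
    obtain ⟨X, hX, rfl⟩ := mem_val.1 hy
    have h2 := bracket_mem_closure hclL hL hS' hX x
    have h3 : (X * D - D * X) x ∈ (val L x).topologicalClosure :=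
      Submodule.le_topologicalClosure _ (mem_val.2 ⟨_, hL D hD X hX, rfl⟩)
    have h4 := (val L x).topologicalClosure.add_mem h2 h3
    have e : (S * X - X * S) x + (X * D - D * X) x = S (X x) - D (X x) := by
      show S (X x) - X (S x) + (X (D x) - D (X x)) = _
      rw [eD]; abel
    rw [e] at h4
    exact h4
  have h2 := bracket_mem_closure hclL hL hT hD x
  have h3 := (val L x).topologicalClosure.sub_mem h1 h2
  have e : (S (T x) - D (T x)) - (T * D - D * T) x = (S * T - T * S) x := by
    show (S (T x) - D (T x)) - (T (D x) - D (T x)) = S (T x) - T (S x)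
    rw [eD]; abel
  rwa [e] at h3

end Real

section Main

variable {𝕜 : Type u} [RCLike 𝕜]

theorem banach {E : Type v} [NormedAddCommGroup E] [NormedSpace 𝕜 E] [CompleteSpace E]
    (L : Submodule 𝕜 (E →L[𝕜] E)) (hL : ∀ D ∈ L, ∀ X ∈ L, D * X - X * D ∈ L)
    {S T : E →L[𝕜] E} (hS : LocallyIn (L : Set (E →L[𝕜] E)) S)
    (hT : ApproxLocallyIn (L : Set (E →L[𝕜] E)) T) :
    ApproxLocallyIn (L : Set (E →L[𝕜] E)) (S * T - T * S) := by
  let _ : NormedSpace ℝ E := NormedSpace.restrictScalars ℝ 𝕜 E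
  have : IsScalarTower ℝ 𝕜 E := inferInstance
  let Lr : Submodule ℝ (E →L[ℝ] E) :=
    { carrier := {X | ∃ D ∈ L, ∀ x, X x = D x}
      add_mem' := by
        rintro X Y ⟨D, hD, eD⟩ ⟨E, hE, eE⟩
        exact ⟨D + E, L.add_mem hD hE, fun x => by
          rw [add_apply, eD, eE]; rfl⟩
      zero_mem' := ⟨0, L.zero_mem, fun x => rfl⟩
      smul_mem' := by
        rintro c X ⟨D, hD, eD⟩
        refine ⟨(c : 𝕜) • D, L.smul_mem _ hD, fun x => ?_⟩
        rw [smul_apply, eD, smul_apply]
        exact (RCLike.real_smul_eq_coe_smul (K := 𝕜) c (D x)) }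
  have hLr : ∀ D ∈ Lr, ∀ X ∈ Lr, X * D - D * X ∈ Lr := by
    rintro X ⟨D, hD, eD⟩ Y ⟨E, hE, eE⟩
    refine ⟨E * D - D * E, hL E hE D hD, fun x => ?_⟩
    show Y (X x) - X (Y x) = E (D x) - D (E x)
    rw [eD, eE, eD, eE]
  let c : (E →L[𝕜] E) → (E →L[ℝ] E) := fun R => R.restrictScalars ℝ
  have hc : ∀ R x, c R x = R x := fun R x => rfl
  have keyS : IsLocal Lr.topologicalClosure (c S) := by
    intro x
    obtain ⟨D, hD, e⟩ := hS x
    exact ⟨c D, Submodule.le_topologicalClosure _ ⟨D, hD, fun _ => rfl⟩, e⟩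
  have keyT : ∀ x, c T x ∈ (val Lr.topologicalClosure x).topologicalClosure := by
    intro x
    have : c T x ∈ closure (val Lr.topologicalClosure x : Set E) := by
      rw [Metric.mem_closure_iff]
      intro ε hε
      obtain ⟨D, hD, e⟩ := hT x ε hε
      refine ⟨c D x, mem_val.2 ⟨c D, Submodule.le_topologicalClosure _ ⟨D, hD, fun _ => rfl⟩, rfl⟩, ?_⟩
      rw [dist_eq_norm]
      exact e
    exact this
  intro x ε hε
  have h := bracket_local_approx Lr.isClosed_topologicalClosure (closure_lie hLr) keyS keyT x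
  have h2 : (c S * c T - c T * c S) x ∈ closure (val Lr x : Set E) := closure_val_le Lr x h
  rw [Metric.mem_closure_iff] at h2
  obtain ⟨y, hy, hlt⟩ := h2 ε hε
  obtain ⟨X, ⟨D, hD, eD⟩, rfl⟩ := mem_val.1 hy
  refine ⟨D, hD, ?_⟩
  rw [dist_eq_norm, eD] at hlt
  exact hlt

theorem locallyIn_of_closed {E : Type v} [NormedAddCommGroup E] [NormedSpace 𝕜 E]
    {L : Submodule 𝕜 (E →L[𝕜] E)} (hcl : ∀ x : E, IsClosed {y : E | ∃ D ∈ L, D x = y})
    {S : E →L[𝕜] E} (hS : ApproxLocallyIn (L : Set (E →L[𝕜] E)) S) :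
    LocallyIn (L : Set (E →L[𝕜] E)) S := by
  intro x
  have : S x ∈ closure {y : E | ∃ D ∈ L, D x = y} := by
    rw [Metric.mem_closure_iff]
    intro ε hε
    obtain ⟨D, hD, e⟩ := hS x ε hε
    exact ⟨D x, ⟨D, hD, rfl⟩, by rw [dist_eq_norm]; exact e⟩
  rw [(hcl x).closure_eq] at this
  obtain ⟨D, hD, e⟩ := this
  exact ⟨D, hD, e.symm⟩

theorem approx_of_locallyIn {E : Type v} [NormedAddCommGroup E] [NormedSpace 𝕜 E]
    {L : Set (E →L[𝕜] E)} {S : E →L[𝕜] E} (hS : LocallyIn L S) : ApproxLocallyIn L S := by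
  intro x ε hε
  obtain ⟨D, hD, e⟩ := hS x
  exact ⟨D, hD, by rw [e, sub_self, norm_zero]; exact hε⟩

end Main

section Final

variable (𝕜 : Type u) [RCLike 𝕜]

theorem banachPart {E : Type v} [NormedAddCommGroup E] [NormedSpace 𝕜 E] [CompleteSpace E]
    (L : Submodule 𝕜 (E →L[𝕜] E)) (hL : ∀ D ∈ L, ∀ X ∈ L, D * X - X * D ∈ L) :
    (∀ S T : E →L[𝕜] E, LocallyIn (L : Set (E →L[𝕜] E)) S →
      ApproxLocallyIn (L : Set (E →L[𝕜] E)) T →
      ApproxLocallyIn (L : Set (E →L[𝕜] E)) (S * T - T * S)) ∧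
    ((∀ x : E, IsClosed {y : E | ∃ D ∈ L, D x = y}) →
      ∀ S T : E →L[𝕜] E, LocallyIn (L : Set (E →L[𝕜] E)) S →
        LocallyIn (L : Set (E →L[𝕜] E)) T →
        LocallyIn (L : Set (E →L[𝕜] E)) (S * T - T * S)) := by
  refine ⟨fun S T hS hT => banach L hL hS hT, fun hcl S T hS hT => ?_⟩
  exact locallyIn_of_closed hcl (banach L hL hS (approx_of_locallyIn hT))

/-- The bounded derivations as a subspace. -/
def derSub {E : Type v} [NormedAddCommGroup E] [NormedSpace 𝕜 E] (m : E →L[𝕜] E →L[𝕜] E) :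
    Submodule 𝕜 (E →L[𝕜] E) where
  carrier := boundedDerivations m
  add_mem' := by
    intro D F hD hF x y
    have hD' : ∀ x y, D (m x y) = m (D x) y + m x (D y) := hD
    have hF' : ∀ x y, F (m x y) = m (F x) y + m x (F y) := hF
    simp only [add_apply, map_add, hD' x y, hF' x y]
    abel
  zero_mem' := by
    intro x y
    simp
  smul_mem' := by
    intro c D hD x y
    have hD' : ∀ x y, D (m x y) = m (D x) y + m x (D y) := hD
    simp only [smul_apply, map_smul, hD' x y, smul_add]

theorem derSub_lie {E : Type v} [NormedAddCommGroup E] [NormedSpace 𝕜 E]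
    (m : E →L[𝕜] E →L[𝕜] E) : ∀ D ∈ derSub 𝕜 m, ∀ X ∈ derSub 𝕜 m, D * X - X * D ∈ derSub 𝕜 m := by
  intro D hD E hE x y
  have hD' : ∀ x y, D (m x y) = m (D x) y + m x (D y) := hD
  have hE' : ∀ x y, E (m x y) = m (E x) y + m x (E y) := hE
  show D (E (m x y)) - E (D (m x y)) = m (D (E x) - E (D x)) y + m x (D (E y) - E (D y))
  simp only [hD', hE', map_add, map_sub, sub_apply]
  abel

theorem finiteDim (A : Type v) [AddCommGroup A] [Module 𝕜 A] [FiniteDimensional 𝕜 A]
    (m : A →ₗ[𝕜] A →ₗ[𝕜] A) (Δ₁ Δ₂ : A →ₗ[𝕜] A) (h1 : IsLocalDerivation m Δ₁)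
    (h2 : IsLocalDerivation m Δ₂) : IsLocalDerivation m (Δ₁ ∘ₗ Δ₂ - Δ₂ ∘ₗ Δ₁) := by
  let e := (Module.finBasis 𝕜 A).equivFun
  let _ : NormedAddCommGroup A :=
    NormedAddCommGroup.induced A (Fin (Module.finrank 𝕜 A) → 𝕜) e.toLinearMap e.injective
  let _ : NormedSpace 𝕜 A :=
    NormedSpace.induced 𝕜 A (Fin (Module.finrank 𝕜 A) → 𝕜) e.toLinearMap
  have : CompleteSpace A := FiniteDimensional.complete 𝕜 A
  let m' : A →L[𝕜] A →L[𝕜] A :=
    LinearMap.toContinuousLinearMap
      ((LinearMap.toContinuousLinearMap (𝕜 := 𝕜) (E := A) (F' := A)).toLinearMap ∘ₗ m)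
  have hm : ∀ x y, m' x y = m x y := fun x y => rfl
  have key : ∀ Δ : A →ₗ[𝕜] A, IsLocalDerivation m Δ →
      LocallyIn (derSub 𝕜 m' : Set (A →L[𝕜] A)) (LinearMap.toContinuousLinearMap Δ) := by
    intro Δ hΔ x
    obtain ⟨D, hD, e⟩ := hΔ x
    exact ⟨LinearMap.toContinuousLinearMap D, fun x y => hD x y, e⟩
  have hcl : ∀ x : A, IsClosed {y : A | ∃ D ∈ derSub 𝕜 m', D x = y} := by
    intro x
    have hs : {y : A | ∃ D ∈ derSub 𝕜 m', D x = y} =
        ((derSub 𝕜 m').map (ContinuousLinearMap.apply 𝕜 A x).toLinearMap : Set A) := by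
      ext y
      simp only [Set.mem_ofPred_eq, SetLike.mem_coe, Submodule.mem_map]
      exact Iff.rfl
    rw [hs]
    exact Submodule.closed_of_finiteDimensional _
  have h := (banachPart 𝕜 (derSub 𝕜 m') (derSub_lie 𝕜 m')).2 hcl _ _ (key Δ₁ h1) (key Δ₂ h2)
  intro x
  obtain ⟨D, hD, e⟩ := h x
  exact ⟨(D : A →ₗ[𝕜] A), fun x y => hD x y, e⟩

end Final

/-- The set `L` of bounded operators is closed under commutators. -/
def BracketClosed {𝕜 : Type u} [RCLike 𝕜] {E : Type v} [NormedAddCommGroup E] [NormedSpace 𝕜 E]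
    (L : Set (E →L[𝕜] E)) : Prop := ∀ D ∈ L, ∀ X ∈ L, D * X - X * D ∈ L

/-- The conclusion of the theorem for a set `L` of bounded operators: commutators of local and
approximately local operators are approximately local, and if all the sets `L x` are closed, then
the local operators are closed under commutators. -/
def Conclusion {𝕜 : Type u} [RCLike 𝕜] {E : Type v} [NormedAddCommGroup E] [NormedSpace 𝕜 E]
    (L : Set (E →L[𝕜] E)) : Prop := BracketApprox L ∧ (ClosedValues L → BracketLocal L)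

/-- The finite-dimensional statement, Q1. -/
def FiniteDimensionalStatement (𝕜 : Type u) [RCLike 𝕜] : Prop :=
  ∀ (A : Type v) [AddCommGroup A] [Module 𝕜 A] [FiniteDimensional 𝕜 A]
    (m : A →ₗ[𝕜] A →ₗ[𝕜] A) (Δ₁ Δ₂ : A →ₗ[𝕜] A), IsLocalDerivation m Δ₁ →
      IsLocalDerivation m Δ₂ → IsLocalDerivation m (Δ₁ ∘ₗ Δ₂ - Δ₂ ∘ₗ Δ₁)

/-- The statement for Lie algebras of bounded operators on Banach spaces. -/
def BanachSpaceStatement (𝕜 : Type u) [RCLike 𝕜] : Prop :=
  ∀ (E : Type v) [NormedAddCommGroup E] [NormedSpace 𝕜 E] [CompleteSpace E]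
    (L : Submodule 𝕜 (E →L[𝕜] E)), BracketClosed (L : Set (E →L[𝕜] E)) →
      Conclusion (L : Set (E →L[𝕜] E))

/-- The statement for the bounded derivations of Banach algebras. -/
def BanachAlgebraStatement (𝕜 : Type u) [RCLike 𝕜] : Prop :=
  ∀ (A : Type v) [NormedAddCommGroup A] [NormedSpace 𝕜 A] [CompleteSpace A]
    (m : A →L[𝕜] A →L[𝕜] A), Conclusion (boundedDerivations m)

/-- **Local derivations of finite-dimensional algebras and of Banach algebras.** Let `𝕜` be `ℝ`
or `ℂ`.

(1) (Q1) For every finite-dimensional algebra `(A, m)` the commutator of two local derivations is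
a local derivation.

(2) Let `E` be a Banach space and `L` any Lie algebra of bounded operators on `E` (a subspace
closed under commutators, of any dimension, not assumed to be closed). If `S` is locally in `L`
and `T` is approximately locally in `L`, then `S T - T S` is approximately locally in `L`. If all
the spaces `L x` are closed, then the bounded operators which are locally in `L` are closed under
commutators.

(3) The same for the bounded derivations of a Banach algebra `(A, m)`, not assumed to be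
associative: the commutator of a bounded local derivation and a bounded approximately local
derivation is an approximately local derivation; if all the spaces `{D x : D}` are closed, then
the commutator of two bounded local derivations is a local derivation. -/
theorem result (𝕜 : Type u) [RCLike 𝕜] :
    FiniteDimensionalStatement.{u, v} 𝕜 ∧ BanachSpaceStatement.{u, v} 𝕜 ∧
      BanachAlgebraStatement.{u, v} 𝕜 := by
  refine ⟨fun A _ _ _ m Δ₁ Δ₂ h1 h2 => finiteDim 𝕜 A m Δ₁ Δ₂ h1 h2,
    fun E _ _ _ L hL => banachPart 𝕜 L hL, fun A _ _ _ m => ?_⟩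
  exact banachPart 𝕜 (derSub 𝕜 m) (derSub_lie 𝕜 m)

end Pool.Agent.Results.MP_066924_al.BanachLocalDerivations
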